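import Pool.Agent.Lib.TGJ.Iface
import Pool.Agent.Lib.TG_h55.LDegRho
import Pool.Agent.Lib.TGJ_h88.Locx
import Pool.Agent.Lib.TGBC_h95.Point

/-!
# TANK G, block C, R13b: the centre of a valuation ring dominating the point `(S, res)` on the
integral closure of `k[f]` dominates the point (Zariski's main theorem)
-/

set_option autoImplicit false

namespace Pool.Agent.TGJ32

open Pool.Agent.TG (Ov ZDim ncl)
open Pool.Agent.TGJ

universe u

/-- A maximal ideal which is minimal over `I`. -/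
theorem exists_pow_le_of_isolated {R : Type*} [CommRing R] [IsNoetherianRing R] (I n : Ideal R)
    [hn : n.IsMaximal]
    (hmin : ∀ Q : Ideal R, Q.IsPrime → I ≤ Q → Q ≤ n → Q = n) :
    ∃ r : ℕ, n ^ (r + 1) ≤ I ⊔ n ^ (r + 2) := by
  classical
  have hfin : I.minimalPrimes.Finite := Ideal.finite_minimalPrimes_of_isNoetherianRing R I
  have h1 : ∀ Q ∈ I.minimalPrimes, Q ≠ n → ∃ c ∈ Q, c ∉ n := by
    intro Q hQ hne
    by_contra hcon
    push Not at hcon
    exact hne (hmin Q hQ.1.1 hQ.1.2 hcon)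
  choose! c hcQ hcn using h1
  let T := hfin.toFinset.erase n
  have hT : ∀ Q, Q ∈ T ↔ Q ≠ n ∧ Q ∈ I.minimalPrimes := by
    intro Q
    rw [Finset.mem_erase, Set.Finite.mem_toFinset]
  let C := ∏ Q ∈ T, c Q
  have hC : C ∉ n := by
    intro h
    obtain ⟨Q, hQ, hc⟩ := (Ideal.IsPrime.prod_mem_iff (hp := hn.isPrime)).1 h
    exact hcn Q ((hT Q).1 hQ).2 ((hT Q).1 hQ).1 hc
  have h2 : Ideal.span {C} * n ≤ I.radical := by
    rw [Ideal.span_singleton_mul_le_iff]
    intro a ha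
    rw [← Ideal.sInf_minimalPrimes, Submodule.mem_sInf]
    intro Q hQ
    by_cases hne : Q = n
    · rw [hne]
      exact n.mul_mem_left _ ha
    · refine Ideal.mul_mem_right _ Q ?_
      obtain ⟨d, hd⟩ := Finset.dvd_prod_of_mem c ((hT Q).2 ⟨hne, hQ⟩)
      have h3 : C = c Q * d := hd
      rw [h3]
      exact Ideal.mul_mem_right _ Q (hcQ Q hQ hne)
  obtain ⟨N, hN⟩ := Ideal.exists_pow_le_of_le_radical_of_fg h2
    ((isNoetherianRing_iff_ideal_fg R).1 inferInstance _)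
  refine ⟨N, fun a ha => ?_⟩
  have hC' : C ^ (N + 1) ∉ n := fun h => hC (hn.isPrime.mem_of_pow_mem _ h)
  refine Pool.Agent.TGJ88.mem_of_mul_mem n le_sup_right hC' (Ideal.mem_sup_left ?_)
  refine hN (Ideal.pow_le_pow_right (Nat.le_succ N) ?_)
  rw [mul_pow, Ideal.span_singleton_pow, mul_comm a]
  exact Ideal.mul_mem_mul (Ideal.mem_span_singleton_self _) ha

variable {k : Type u} [Field k]

section Main

variable {S L : Type u} [CommRing S] [Algebra k S] [Field L] [Algebra k L]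

theorem val_res {W : ValuationSubring L} (hk : Ov k W) {l : L} {c : k}
    (h : W.valuation (l - algebraMap k L c) < 1) : W.valuation l < 1 ↔ c = 0 := by
  constructor
  · intro h1
    refine (TG55.val_uniq hk (a := l) (c := 0) (c' := c) ?_ h).symm
    rw [map_zero, sub_zero]
    exact h1
  · rintro rfl
    rwa [map_zero, sub_zero] at h

variable {φ : S →ₐ[k] L} {res : S →ₐ[k] k} {m : ℕ} {f : Fin m → S}

/-- A parameter ideal: the centre on the image is isolated. -/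
theorem isolated_of_proper {A : Subalgebra k S} (hfA : ∀ i, f i ∈ A)
    (hA : ∀ s : S, ∃ a ∈ A, ∃ b ∈ A, res b = 1 ∧ s * b = a) (hp : Proper φ res f)
    {W : ValuationSubring L} (hk : Ov k W)
    (hc : ∀ s, W.valuation (φ s - algebraMap k L (res s)) < 1)
    (hAW : ∀ a ∈ A.map φ, a ∈ W) (Q : Ideal (A.map φ)) (hQ : Q.IsPrime)
    (hI : ∀ i, ∀ a : A.map φ, (a : L) = φ (f i) → a ∈ Q)
    (hle : Q ≤ TGBC95.cen W (A.map φ) hAW) : Q = TGBC95.cen W (A.map φ) hAW := by
  have hmem : ∀ {a : S}, a ∈ A → φ a ∈ A.map φ := fun ha => ⟨_, ha, rfl⟩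
  have hzero : ∀ s : S, W.valuation (φ s) < 1 ↔ res s = 0 := fun s => val_res hk (hc s)
  -- the corresponding prime of `S`
  let P : S → Prop := fun s => ∃ a, ∃ ha : a ∈ A, ∃ b ∈ A, res b ≠ 0 ∧ s * b = a ∧
    (⟨φ a, hmem ha⟩ : A.map φ) ∈ Q
  have hunit : ∀ {b : S} (hb : b ∈ A), res b ≠ 0 → (⟨φ b, hmem hb⟩ : A.map φ) ∉ Q := by
    intro b hb h0 h1
    exact h0 ((hzero b).1 (hle h1))
  let Q' : Ideal S :=
    { carrier := {s | P s}
      zero_mem' := ⟨0, A.zero_mem, 1, A.one_mem, by rw [map_one]; exact one_ne_zero,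
        by rw [zero_mul], by
          have h : (⟨φ 0, hmem A.zero_mem⟩ : A.map φ) = 0 := Subtype.ext (map_zero φ)
          rw [h]
          exact Q.zero_mem⟩
      add_mem' := by
        rintro s t ⟨a, ha, b, hb, h0, h1, h2⟩ ⟨a', ha', b', hb', h0', h1', h2'⟩
        refine ⟨a * b' + a' * b, A.add_mem (A.mul_mem ha hb') (A.mul_mem ha' hb), b * b',
          A.mul_mem hb hb', by rw [map_mul]; exact mul_ne_zero h0 h0', ?_, ?_⟩
        · rw [← h1, ← h1']; ring
        · have h : (⟨φ (a * b' + a' * b), hmem (A.add_mem (A.mul_mem ha hb')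
              (A.mul_mem ha' hb))⟩ : A.map φ) = ⟨φ a, hmem ha⟩ * ⟨φ b', hmem hb'⟩ +
              ⟨φ a', hmem ha'⟩ * ⟨φ b, hmem hb⟩ := Subtype.ext (by
                change φ (a * b' + a' * b) = φ a * φ b' + φ a' * φ b
                rw [map_add, map_mul, map_mul])
          rw [h]
          exact Q.add_mem (Q.mul_mem_right _ h2) (Q.mul_mem_right _ h2')
      smul_mem' := by
        rintro t s ⟨a, ha, b, hb, h0, h1, h2⟩
        obtain ⟨c, hc, d, hd, h3, h4⟩ := hA t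
        refine ⟨c * a, A.mul_mem hc ha, d * b, A.mul_mem hd hb, ?_, ?_, ?_⟩
        · rw [map_mul, h3, one_mul]
          exact h0
        · rw [← h1, ← h4, smul_eq_mul]; ring
        · have h : (⟨φ (c * a), hmem (A.mul_mem hc ha)⟩ : A.map φ) =
              ⟨φ c, hmem hc⟩ * ⟨φ a, hmem ha⟩ := Subtype.ext (map_mul φ c a)
          rw [h]
          exact Q.mul_mem_left _ h2 }
  have hQ'A : ∀ {s : S} (hs : s ∈ A), s ∈ Q' → (⟨φ s, hmem hs⟩ : A.map φ) ∈ Q := by
    rintro s hs ⟨a, ha, b, hb, h0, h1, h2⟩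
    have h : (⟨φ a, hmem ha⟩ : A.map φ) = ⟨φ s, hmem hs⟩ * ⟨φ b, hmem hb⟩ := Subtype.ext (by
      change φ a = φ s * φ b
      rw [← map_mul, h1])
    rw [h] at h2
    exact (hQ.mem_or_mem h2).resolve_right (hunit hb h0)
  have hQ'p : Q'.IsPrime := by
    refine ⟨?_, ?_⟩
    · rw [Ne, Ideal.eq_top_iff_one]
      intro h
      exact hunit A.one_mem (by rw [map_one]; exact one_ne_zero) (hQ'A A.one_mem h)
    · intro s t hst
      obtain ⟨a, ha, b, hb, hb1, h1⟩ := hA s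
      obtain ⟨a', ha', b', hb', hb1', h1'⟩ := hA t
      have h2 : a * a' ∈ Q' := by
        have h3 : a * a' = (s * t) * (b * b') := by rw [← h1, ← h1']; ring
        rw [h3]
        exact Q'.mul_mem_right _ hst
      have h3 := hQ'A (A.mul_mem ha ha') h2
      have h4 : (⟨φ (a * a'), hmem (A.mul_mem ha ha')⟩ : A.map φ) =
        ⟨φ a, hmem ha⟩ * ⟨φ a', hmem ha'⟩ := Subtype.ext (map_mul φ a a')
      rw [h4] at h3
      rcases hQ.mem_or_mem h3 with h5 | h5
      · exact Or.inl ⟨a, ha, b, hb, by rw [hb1]; exact one_ne_zero, h1, h5⟩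
      · exact Or.inr ⟨a', ha', b', hb', by rw [hb1']; exact one_ne_zero, h1', h5⟩
  have hker : RingHom.ker φ ≤ Q' := by
    intro s hs
    obtain ⟨a, ha, b, hb, hb1, h1⟩ := hA s
    refine ⟨a, ha, b, hb, by rw [hb1]; exact one_ne_zero, h1, ?_⟩
    have h : (⟨φ a, hmem ha⟩ : A.map φ) = 0 := Subtype.ext (by
      change φ a = 0
      rw [← h1, map_mul, (RingHom.mem_ker (f := φ)).1 hs, zero_mul])
    rw [h]
    exact Q.zero_mem
  have hf : ∀ i, f i ∈ Q' := fun i => ⟨f i, hfA i, 1, A.one_mem, by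
    rw [map_one]; exact one_ne_zero, mul_one _, hI i _ rfl⟩
  have heq := hp.2 Q' hQ'p hker hf
  refine le_antisymm hle ?_
  rintro ⟨_, a, ha, rfl⟩ h1
  refine hQ'A ha ?_
  rw [heq]
  exact (hzero a).1 h1

/-- **The centre of a valuation ring dominating the point `(S, res)`** on the integral closure of
`k[f]` dominates the point, if `f` is a system of parameters. -/
theorem doms_of_proper
    (hfg : ∃ A₀ : Subalgebra k S, A₀.FG ∧ ∀ s : S, ∃ a ∈ A₀, ∃ b ∈ A₀, res b = 1 ∧ s * b = a)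
    (hp : Proper φ res f) (W : ValuationSubring L) (hW : ZDim k W)
    (hc : ∀ s, W.valuation (φ s - algebraMap k L (res s)) < 1)
    (x : icf k (fun i => φ (f i)) →ₐ[k] k)
    (hx : ∀ a : icf k (fun i => φ (f i)), W.valuation ((a : L) - algebraMap k L (x a)) < 1) :
    Over0 _ x ∧ Doms φ res _ x := by
  have hk := hW.ov
  refine ⟨fun i => ?_, ?_⟩
  · refine TG55.val_uniq hk (hx (icf.X (fun i => φ (f i)) i)) ?_
    have h1 := hc (f i)
    rw [hp.1 i] at h1
    exact h1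
  obtain ⟨A₀, hA₀, hA₀'⟩ := hfg
  obtain ⟨A, hAd⟩ : ∃ A, A = A₀ ⊔ Algebra.adjoin k (Set.range f) := ⟨_, rfl⟩
  have hAfg : A.FG := by
    rw [hAd]
    refine hA₀.sup ⟨(Set.finite_range f).toFinset, by rw [Set.Finite.coe_toFinset]⟩
  have hfA : ∀ i, f i ∈ A := fun i => by
    rw [hAd]
    exact (le_sup_right : _ ≤ A₀ ⊔ Algebra.adjoin k (Set.range f)) (Algebra.subset_adjoin ⟨i, rfl⟩)
  have hA : ∀ s : S, ∃ a ∈ A, ∃ b ∈ A, res b = 1 ∧ s * b = a := by
    intro s
    obtain ⟨a, ha, b, hb, h⟩ := hA₀' s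
    have hle : A₀ ≤ A := by rw [hAd]; exact le_sup_left
    exact ⟨a, hle ha, b, hle hb, h⟩
  clear hAd
  have hmemW : ∀ s : S, φ s ∈ W := by
    intro s
    have h1 : φ s - algebraMap k L (res s) ∈ W := (W.valuation_le_one_iff _).1 (hc s).le
    have h2 := W.add_mem _ _ h1 (hk (res s))
    rwa [sub_add_cancel] at h2
  have hAW : ∀ a ∈ A.map φ, a ∈ W := by
    rintro _ ⟨a, -, rfl⟩
    exact hmemW a
  have hBfg : (A.map φ).FG := hAfg.map φ
  have hnoeth : IsNoetherianRing (A.map φ) := by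
    have h1 : Algebra.FiniteType k (A.map φ) := (A.map φ).fg_iff_finiteType.1 hBfg
    exact Algebra.FiniteType.isNoetherianRing k _
  have hmax := TGBC95.cen_isMaximal hW hAW
  obtain ⟨r, hr⟩ := exists_pow_le_of_isolated
    (Ideal.span {a : A.map φ | (a : L) ∈ Set.range fun i => φ (f i)})
    (TGBC95.cen W (A.map φ) hAW) (fun Q hQ hI hle => by
      refine isolated_of_proper hfA hA hp hk hc hAW Q hQ (fun i a ha => hI ?_) hle
      exact Ideal.subset_span ⟨i, ha.symm⟩)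
  have hsub : (Set.range fun i => φ (f i)) ⊆ (A.map φ : Set L) := by
    rintro _ ⟨i, rfl⟩
    exact ⟨f i, hfA i, rfl⟩
  have hlt : ∀ u ∈ Set.range fun i => φ (f i), W.valuation u < 1 := by
    rintro _ ⟨i, rfl⟩
    exact (val_res hk (hc (f i))).2 (hp.1 i)
  obtain ⟨h, hhA, hh1, hhi, hall⟩ := TGBC95.exists_zmt hW hBfg hAW hsub hlt r hr
  intro s
  obtain ⟨a, ha, b, hb, hb1, hab⟩ := hA s
  obtain ⟨e, he⟩ := hall (φ a) ⟨a, ha, rfl⟩
  obtain ⟨e', he'⟩ := hall (φ b) ⟨b, hb, rfl⟩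
  have hC : ∀ (c : L) (j j' : ℕ), h ^ j * c ∈ ncl (Algebra.adjoin k (Set.range fun i => φ (f i))) →
      h ^ (j' + j) * c ∈ icf k (fun i => φ (f i)) := by
    intro c j j' hjc
    have h1 := (ncl (Algebra.adjoin k (Set.range fun i => φ (f i)))).mul_mem
      (pow_mem hhi j') hjc
    have h2 : h ^ (j' + j) * c = h ^ j' * (h ^ j * c) := by rw [pow_add, mul_assoc]
    rw [h2]
    exact h1
  have h1 : h ^ (e' + e) * φ a ∈ icf k (fun i => φ (f i)) := hC _ _ _ he
  have h2 : h ^ (e' + e) * φ b ∈ icf k (fun i => φ (f i)) := by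
    rw [add_comm]
    exact hC _ _ _ he'
  have hval : W.valuation (h ^ (e' + e) * φ b) = 1 := by
    rw [map_mul, map_pow, hh1, one_pow, one_mul]
    refine le_antisymm ((W.valuation_le_one_iff _).2 (hmemW b)) (not_lt.1 fun hlt => ?_)
    have h3 := (val_res hk (hc b)).1 hlt
    rw [hb1] at h3
    exact one_ne_zero h3
  obtain ⟨t, ht⟩ : ∃ t, t = x ⟨_, h2⟩ := ⟨_, rfl⟩
  have ht0 : t ≠ 0 := by
    intro h0
    have h3 := (val_res hk (hx ⟨_, h2⟩)).2 (by rw [← ht]; exact h0)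
    exact absurd hval h3.ne
  refine ⟨algebraMap k _ t⁻¹ * ⟨_, h1⟩, algebraMap k _ t⁻¹ * ⟨_, h2⟩, ?_, ?_, ?_⟩
  · rw [map_mul, x.commutes, ← ht]
    exact inv_mul_cancel₀ ht0
  · change φ s * (algebraMap k L t⁻¹ * (h ^ (e' + e) * φ b)) =
      algebraMap k L t⁻¹ * (h ^ (e' + e) * φ a)
    rw [← hab, map_mul]
    ring
  · -- the value
    refine TG55.val_uniq hk (hx _) ?_
    have h3 : ((algebraMap k (icf k fun i => φ (f i)) t⁻¹ * ⟨_, h1⟩ :
        icf k fun i => φ (f i)) : L) = φ s * (algebraMap k L t⁻¹ * (h ^ (e' + e) * φ b)) := by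
      change algebraMap k L t⁻¹ * (h ^ (e' + e) * φ a) = _
      rw [← hab, map_mul]
      ring
    rw [h3]
    have h4 := hx (algebraMap k _ t⁻¹ * ⟨_, h2⟩)
    have h5 : x (algebraMap k _ t⁻¹ * ⟨_, h2⟩) = 1 := by
      rw [map_mul, x.commutes, ← ht]
      exact inv_mul_cancel₀ ht0
    rw [h5, map_one] at h4
    have h6 : W.valuation (algebraMap k L t⁻¹ * (h ^ (e' + e) * φ b) - 1) < 1 := h4
    have h7 : φ s * (algebraMap k L t⁻¹ * (h ^ (e' + e) * φ b)) - algebraMap k L (res s) =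
        φ s * (algebraMap k L t⁻¹ * (h ^ (e' + e) * φ b) - 1) +
          (φ s - algebraMap k L (res s)) := by ring
    rw [h7]
    refine Valuation.map_add_lt _ ?_ (hc s)
    rw [map_mul]
    exact lt_of_le_of_lt (mul_le_of_le_one_left' ((W.valuation_le_one_iff _).2 (hmemW s))) h6

end Main

end Pool.Agent.TGJ32
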