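import Pool.Agent.Lib.TG_h80.HH

/-!
# TANK G, block C, R13b: composition of valuation rings
-/

set_option autoImplicit false

namespace Pool.Agent.TGJ32

open Pool.Agent.TG (Ov ZDim val_lt_one_iff')

universe u

variable {K M : Type u} [Field K] [Field M]

section Res

variable {v : ValuationSubring K} (ρ : v →+* M)

theorem res_ne_zero {x : v} (h : v.valuation (x : K) = 1) : ρ x ≠ 0 := by
  have h1 : IsUnit x := (v.valuation_eq_one_iff x).2 h
  exact (h1.map ρ).ne_zero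

variable {ρ}

theorem res_eq_zero (hρ : Function.Surjective ρ) {x : v} (h : v.valuation (x : K) < 1) :
    ρ x = 0 := by
  by_contra hx
  obtain ⟨y, hy⟩ := hρ (ρ x)⁻¹
  have h1 : ρ (x * y - 1) = 0 := by
    rw [map_sub, map_mul, hy, mul_inv_cancel₀ hx, map_one, sub_self]
  refine res_ne_zero ρ ?_ h1
  have h2 : v.valuation ((x : K) * (y : K)) < 1 := by
    rw [map_mul]
    exact lt_of_le_of_lt (mul_le_of_le_one_right' (v.valuation_le_one y)) h
  change v.valuation ((x : K) * (y : K) - 1) = 1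
  rw [Valuation.map_sub_swap, Valuation.map_one_sub_of_lt _ h2]

theorem res_eq_zero_iff (hρ : Function.Surjective ρ) {x : v} :
    ρ x = 0 ↔ v.valuation (x : K) < 1 := by
  refine ⟨fun h => ?_, res_eq_zero hρ⟩
  by_contra h1
  exact res_ne_zero ρ (le_antisymm (v.valuation_le_one x) (not_lt.1 h1)) h

theorem inv_mem_of_res {x : v} (hρ : Function.Surjective ρ) (h : ρ x ≠ 0) : (x : K)⁻¹ ∈ v := by
  have h1 : v.valuation (x : K) = 1 := by
    refine le_antisymm (v.valuation_le_one x) (not_lt.1 fun h1 => h (res_eq_zero hρ h1))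
  rw [← v.valuation_le_one_iff, map_inv₀, h1, inv_one]

theorem res_inv {x : v} (hρ : Function.Surjective ρ) (h : ρ x ≠ 0) :
    ρ ⟨(x : K)⁻¹, inv_mem_of_res hρ h⟩ = (ρ x)⁻¹ := by
  have hx : (x : K) ≠ 0 := by
    rintro h0
    apply h
    have : x = 0 := Subtype.ext h0
    rw [this, map_zero]
  refine eq_inv_of_mul_eq_one_left ?_
  rw [← map_mul]
  have h2 : (⟨(x : K)⁻¹, inv_mem_of_res hρ h⟩ * x : v) = 1 := Subtype.ext (inv_mul_cancel₀ hx)
  rw [h2, map_one]

end Res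

variable {v : ValuationSubring K} (ρ : v →+* M)

/-- The composite of `v` with a valuation ring of the residue field. -/
def compV (hρ : Function.Surjective ρ) (W : ValuationSubring M) : ValuationSubring K where
  carrier := {x | ∃ h : x ∈ v, ρ ⟨x, h⟩ ∈ W}
  mul_mem' := by
    rintro a b ⟨ha, ha'⟩ ⟨hb, hb'⟩
    refine ⟨v.mul_mem _ _ ha hb, ?_⟩
    have h := W.mul_mem _ _ ha' hb'
    rw [← map_mul] at h
    exact h
  one_mem' := ⟨v.one_mem, by
    have h : ρ ⟨1, v.one_mem⟩ = 1 := map_one ρ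
    rw [h]
    exact W.one_mem⟩
  add_mem' := by
    rintro a b ⟨ha, ha'⟩ ⟨hb, hb'⟩
    refine ⟨v.add_mem _ _ ha hb, ?_⟩
    have h := W.add_mem _ _ ha' hb'
    rw [← map_add] at h
    exact h
  zero_mem' := ⟨v.zero_mem, by
    have h : ρ ⟨0, v.zero_mem⟩ = 0 := map_zero ρ
    rw [h]
    exact W.zero_mem⟩
  neg_mem' := by
    rintro a ⟨ha, ha'⟩
    refine ⟨v.neg_mem _ ha, ?_⟩
    have h := W.neg_mem _ ha'
    rw [← map_neg] at h
    exact h
  mem_or_inv_mem' := by
    intro x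
    by_cases hx : x ∈ v
    · by_cases h0 : ρ ⟨x, hx⟩ = 0
      · exact Or.inl ⟨hx, by rw [h0]; exact W.zero_mem⟩
      · rcases W.mem_or_inv_mem (ρ ⟨x, hx⟩) with h | h
        · exact Or.inl ⟨hx, h⟩
        · refine Or.inr ⟨inv_mem_of_res hρ h0, ?_⟩
          have h1 := res_inv hρ h0
          rw [← h1] at h
          exact h
    · have hx' : x⁻¹ ∈ v := (v.mem_or_inv_mem x).resolve_left hx
      have hx0 : x⁻¹ ≠ 0 := by
        intro h
        rw [inv_eq_zero] at h
        rw [h] at hx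
        exact hx v.zero_mem
      refine Or.inr ⟨hx', ?_⟩
      have h1 : ρ ⟨x⁻¹, hx'⟩ = 0 := by
        refine res_eq_zero hρ ?_
        change v.valuation x⁻¹ < 1
        rw [val_lt_one_iff' v hx0, inv_inv]
        exact hx
      rw [h1]
      exact W.zero_mem

variable {ρ} (hρ : Function.Surjective ρ) (W : ValuationSubring M)

theorem mem_compV {x : K} : x ∈ compV ρ hρ W ↔ ∃ h : x ∈ v, ρ ⟨x, h⟩ ∈ W := Iff.rfl

theorem compV_le : compV ρ hρ W ≤ v := fun _ h => h.1

theorem mem_compV' (x : v) : (x : K) ∈ compV ρ hρ W ↔ ρ x ∈ W :=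
  ⟨fun ⟨_, h⟩ => h, fun h => ⟨x.2, h⟩⟩

theorem compV_lt_one (x : v) :
    (compV ρ hρ W).valuation (x : K) < 1 ↔ W.valuation (ρ x) < 1 := by
  by_cases hx : (x : K) = 0
  · have h1 : x = 0 := Subtype.ext hx
    rw [hx, h1, map_zero, map_zero, map_zero]
    exact Iff.intro (fun _ => zero_lt_one) (fun _ => zero_lt_one)
  rw [val_lt_one_iff' _ hx]
  by_cases h0 : ρ x = 0
  · rw [h0, map_zero]
    refine ⟨fun _ => zero_lt_one, fun _ h => ?_⟩
    have h1 := (res_eq_zero_iff hρ).1 h0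
    rw [val_lt_one_iff' _ hx] at h1
    exact h1 h.1
  · rw [val_lt_one_iff' _ h0, not_iff_not, ← res_inv hρ h0]
    exact mem_compV' hρ W ⟨(x : K)⁻¹, inv_mem_of_res hρ h0⟩

variable {k : Type u} [Field k] [Algebra k K] [Algebra k M]

/-- The composite of `v` with a zero-dimensional valuation ring. -/
theorem compV_zdim (hk : ∀ c : k, ∃ h : algebraMap k K c ∈ v, ρ ⟨algebraMap k K c, h⟩ =
    algebraMap k M c) (hW : ZDim k W) : ZDim k (compV ρ hρ W) := by
  refine ⟨fun c => ?_, fun x hx => ?_⟩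
  · obtain ⟨h, h1⟩ := hk c
    refine ⟨h, ?_⟩
    rw [h1]
    exact hW.ov c
  · obtain ⟨h, h1⟩ := hx
    obtain ⟨c, hc⟩ := hW.res _ h1
    obtain ⟨h2, h3⟩ := hk c
    refine ⟨c, ?_⟩
    have h4 := compV_lt_one hρ W (⟨x, h⟩ - ⟨algebraMap k K c, h2⟩)
    rw [map_sub, h3] at h4
    exact h4.2 hc

end Pool.Agent.TGJ32
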