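import Pool.Agent.Lib.TGJ.NVPt
import Pool.Agent.Lib.TGJ.LinkB
import Pool.Agent.Lib.TGJ.Congr
import Pool.Agent.Lib.TGJ_h32.Comp
import Pool.Agent.Lib.TGJ_h32.Doms
import Pool.Agent.Lib.TG_h55.Chart
import Pool.Agent.Lib.TG_h21.Res
import Pool.Agent.Lib.TG.WLz

/-!
# TANK G, block C, R13b: `LDeg` of the residue field of a horizontal prime divisor over `P^m`
-/

set_option autoImplicit false

namespace Pool.Agent.TGJ32

open Pool.Agent.TG (Ov ZDim ncl up LB PB LDeg RV)
open Pool.Agent.TGJ
open Pool.Agent.TG55 (wB hB wB_coe)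
open Pool.Agent.TG21 (IsRes)

universe u

variable {k : Type u} [Field k]

/-! ## The residue map on `S` -/

section Phi

variable {K M : Type u} [Field K] [Field M] [Algebra k K] [Algebra k M]

/-- The residue map of `v` on a subalgebra `S ⊆ v`. -/
def resMap (S : Subalgebra k K) {v : ValuationSubring K} (π : v →+* M)
    (hS : ∀ a ∈ S, a ∈ v)
    (hk : ∀ c : k, ∃ h : algebraMap k K c ∈ v, π ⟨algebraMap k K c, h⟩ = algebraMap k M c) :
    S →ₐ[k] M where
  toFun s := π ⟨s, hS s s.2⟩
  map_one' := map_one π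
  map_mul' a b := map_mul π ⟨a, hS a a.2⟩ ⟨b, hS b b.2⟩
  map_zero' := map_zero π
  map_add' a b := map_add π ⟨a, hS a a.2⟩ ⟨b, hS b b.2⟩
  commutes' c := (hk c).2

variable {S : Subalgebra k K} {v : ValuationSubring K} {π : v →+* M}
  {hS : ∀ a ∈ S, a ∈ v}
  {hk : ∀ c : k, ∃ h : algebraMap k K c ∈ v, π ⟨algebraMap k K c, h⟩ = algebraMap k M c}

theorem resMap_apply (s : S) : resMap S π hS hk s = π ⟨s, hS s s.2⟩ := rfl

theorem resMap_eq_zero (hs : Function.Surjective π) (s : S) :
    resMap S π hS hk s = 0 ↔ s ∈ cen S v := by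
  rw [mem_cen hS, resMap_apply, res_eq_zero_iff hs]

theorem ker_resMap (hs : Function.Surjective π) :
    RingHom.ker (toRes S v) = RingHom.ker (resMap S π hS hk) := by
  ext s
  have h1 : s ∈ RingHom.ker (toRes S v) ↔ s ∈ cen S v := by
    rw [RingHom.mem_ker]
    exact Ideal.algebraMap_residueField_eq_zero
  have h2 : s ∈ RingHom.ker (resMap S π hS hk) ↔ s ∈ cen S v := by
    rw [RingHom.mem_ker]
    exact resMap_eq_zero hs s
  rw [h1, h2]

theorem fracOf_resMap (hs : Function.Surjective π) (hD : IsDiv S v) :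
    FracOf (resMap S π hS hk) := by
  intro l
  obtain ⟨x, rfl⟩ := hs l
  obtain ⟨a, ha, b, hb, h1, h2⟩ := hD.loc x x.2
  refine ⟨⟨a, ha⟩, ⟨b, hb⟩, ?_, ?_⟩
  · rw [Ne, resMap_apply, res_eq_zero_iff hs]
    exact fun h => absurd h1 h.ne
  · rw [resMap_apply, resMap_apply, ← map_mul]
    congr 1
    exact Subtype.ext h2

theorem val_resMap (hs : Function.Surjective π) (W : ValuationSubring M) {res : S →ₐ[k] k}
    (hres : ResAt (compV π hs W) res) (s : S) :
    W.valuation (resMap S π hS hk s - algebraMap k M (res s)) < 1 := by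
  obtain ⟨h1, h2⟩ := hk (res s)
  rw [resMap_apply, ← h2, ← map_sub, ← compV_lt_one hs]
  exact hres s

variable [IsAlgClosed k] {m : ℕ}

theorem rhoV_eq (hs : Function.Surjective π) (hD : IsDiv S v) (res : S →ₐ[k] k)
    (w : Fin m → S) : Rho (resMap S π hS hk) res w = RhoV S v res w := by
  have hinf : Infinite k := IsAlgClosed.instInfinite
  exact (rhoCongr k S _ M (toRes S v) (resMap S π hS hk) res m w (ker_resMap hs)
    (fracOf_residue _) (fracOf_resMap hs hD)).symm

omit [IsAlgClosed k] in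
theorem proper_resMap (hs : Function.Surjective π) {res : S →ₐ[k] k}
    {w : Fin m → S} (hp : ProperV S v res w) : Proper (resMap S π hS hk) res w := by
  refine ⟨hp.1, fun Q hQ hker hw => hp.2 Q hQ ?_ hw⟩
  rw [ker_resMap (hS := hS) (hk := hk) hs]
  exact hker

omit [IsAlgClosed k] in
/-- `S` is essentially of finite type. -/
theorem fg_of_nPt {res : S →ₐ[k] k} (h : NPt S res) :
    ∃ A₀ : Subalgebra k S, A₀.FG ∧ ∀ s : S, ∃ a ∈ A₀, ∃ b ∈ A₀, res b = 1 ∧ s * b = a := by
  obtain ⟨A, hA, hle, hall⟩ := h.fg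
  refine ⟨(Subalgebra.inclusion hle).range, ?_, fun s => ?_⟩
  · have h1 : Algebra.FiniteType k A := A.fg_iff_finiteType.1 hA
    rw [← Algebra.map_top]
    exact h1.out.map _
  · obtain ⟨a, b, hb, hab⟩ := hall s
    exact ⟨_, ⟨a, rfl⟩, _, ⟨b, rfl⟩, hb, Subtype.ext hab⟩

end Phi

theorem up_adjoin {F M : Type u} [Field F] [Field M] [Algebra k F] [Algebra k M] [Algebra F M]
    [IsScalarTower k F M] {m : ℕ} (g : Fin m → F) :
    up M (Algebra.adjoin k (Set.range g)) = kf k (fun i => algebraMap F M (g i)) := by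
  rw [up, AlgHom.map_adjoin, ← Set.range_comp]
  rfl

/-! ## The main theorem -/

section Main

variable {K : Type u} [Field K] [Algebra k K] {m : ℕ}

/-- The bound of the local degrees of the prime divisor `v` over `P^m` (homogeneous coordinates
`1, b`) at all closed points of `v`. -/
def ResBd (b : Fin m → K) (v : ValuationSubring K) (d : ℕ) : Prop :=
  ∀ V : ValuationSubring K, ZDim k V → V ≤ v → ∀ j : Fin (m + 1), (∀ i, hB b i / hB b j ∈ V) →
    ∃ (S : Subalgebra k K) (res : S →ₐ[k] k), NPt S res ∧ IsDiv S v ∧ ResAt V res ∧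
      ∃ w : Fin m → S, (∀ i, ∃ c : k,
        (w i : K) = hB b (j.succAbove i) / hB b j - algebraMap k K c) ∧
      ProperV S v res w ∧ RhoV S v res w ≤ d

variable [IsAlgClosed k] {b : Fin m → K} {v : ValuationSubring K} {M : Type u} [Field M]
  [Algebra k M] [Algebra (LB k b) M] [IsScalarTower k (LB k b) M] {π : v →+* M}

omit [IsAlgClosed k] in
theorem hk_of_isRes (hπ : IsRes (F := LB k b) v M π) (c : k) :
    ∃ h : algebraMap k K c ∈ v, π ⟨algebraMap k K c, h⟩ = algebraMap k M c := by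
  obtain ⟨h, h1⟩ := hπ.comm (algebraMap k (LB k b) c)
  refine ⟨h, ?_⟩
  rw [IsScalarTower.algebraMap_apply k (LB k b) M]
  exact h1

variable [FiniteDimensional (LB k b) M]

/-- **The local degrees of the residue field.** -/
theorem rho_le (hbi : AlgebraicIndependent k b) (hπ : IsRes (F := LB k b) v M π) {d : ℕ}
    (h : ResBd (k := k) b v d) (j : Fin (m + 1)) (W : ValuationSubring M) (hW : ZDim k W)
    (hj : ∀ i, algebraMap (LB k b) M (wB k b i / wB k b j) ∈ W)
    (x : ncl (up M (Algebra.adjoin k (Set.range fun i => wB k b i / wB k b j))) →ₐ[k] k)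
    (hx : ∀ a : ncl (up M (Algebra.adjoin k (Set.range fun i => wB k b i / wB k b j))),
      W.valuation ((a : M) - algebraMap k M (x a)) < 1) :
    TG82.rho (Algebra.adjoin k (Set.range fun i => wB k b i / wB k b j)) x ≤ d := by
  have hs := hπ.surj
  have hk := hk_of_isRes hπ
  have hbne : ∀ i, b i ≠ 0 := fun i => hbi.ne_zero i
  have hwne := TG55.wB_ne (k := k) hbne
  have hV : ZDim k (compV π hs W) := compV_zdim hs W hk hW
  -- the ratios
  have hcoe : ∀ i, ((wB k b i / wB k b j : LB k b) : K) = hB b i / hB b j := by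
    intro i
    have h1 : ((wB k b i / wB k b j : LB k b) : K) = (wB k b i : K) / (wB k b j : K) := rfl
    rw [h1, wB_coe, wB_coe]
  have hrat : ∀ i, ∃ h : hB b i / hB b j ∈ v,
      π ⟨hB b i / hB b j, h⟩ = algebraMap (LB k b) M (wB k b i / wB k b j) := by
    intro i
    obtain ⟨h1, h2⟩ := hπ.comm (wB k b i / wB k b j)
    have h3 : algebraMap (LB k b) K (wB k b i / wB k b j) = hB b i / hB b j := hcoe i
    refine ⟨by rw [← h3]; exact h1, ?_⟩
    rw [← h2]
    congr 1
    exact Subtype.ext h3.symm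
  obtain ⟨S, res, hN, hD, hres, w, hw, hp, hr⟩ := h (compV π hs W) hV (compV_le hs W) j
    (fun i => by
      obtain ⟨h1, h2⟩ := hrat i
      refine ⟨h1, ?_⟩
      rw [h2]
      exact hj i)
  have hS := hD.le
  -- the chart
  have hgen := TG55.adjoin_ratio_eq_top (wB k b) hwne (TG55.wB_gen b) j
  have hAeq := TG55.adjoin_ratio_eq (k := k) (wB k b) hwne j
  have hA : ∀ g : LB k b, IsIntegral (Algebra.adjoin k (Set.range fun i => wB k b i / wB k b j)) g →
      g ∈ Algebra.adjoin k (Set.range fun i => wB k b i / wB k b j) := by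
    rw [hAeq]
    exact TG55.mem_adjoin_of_isIntegral _
      (TG55.algInd_ratio (wB k b) hwne (TG55.wB_gen b) (TG55.trdeg_LB hbi) j) hgen
  have hfr : ∀ g : LB k b, ∃ a ∈ Algebra.adjoin k (Set.range fun i => wB k b i / wB k b j),
      ∃ c ∈ Algebra.adjoin k (Set.range fun i => wB k b i / wB k b j), c ≠ 0 ∧ g = a / c := by
    rw [hAeq]
    intro g
    have hg : g ∈ IntermediateField.adjoin k
        (Set.range fun i : Fin m => wB k b (j.succAbove i) / wB k b j) := by rw [hgen]; trivial
    obtain ⟨a, ha, c, hc, hac⟩ := (IntermediateField.mem_adjoin_iff_div).1 hg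
    by_cases hc0 : c = 0
    · refine ⟨0, Subalgebra.zero_mem _, 1, Subalgebra.one_mem _, one_ne_zero, ?_⟩
      rw [hac, hc0, div_zero, zero_div]
    · exact ⟨a, ha, c, hc, hc0, hac⟩
  have hf : kf k (fun i => resMap S π hS hk (w i)) =
      up M (Algebra.adjoin k (Set.range fun i => wB k b i / wB k b j)) := by
    choose c hc using hw
    have hres' : ∀ i, resMap S π hS hk (w i) =
        algebraMap (LB k b) M (wB k b (j.succAbove i) / wB k b j) - algebraMap k M (c i) := by
      intro i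
      obtain ⟨h1, h2⟩ := hrat (j.succAbove i)
      obtain ⟨h3, h4⟩ := hk (c i)
      have h5 : (⟨w i, hS _ (w i).2⟩ : v) = ⟨hB b (j.succAbove i) / hB b j, h1⟩ -
        ⟨algebraMap k K (c i), h3⟩ := Subtype.ext (hc i)
      rw [resMap_apply, h5, map_sub, h2, h4]
    rw [kf_sub_const _ _ c hres', hAeq, up_adjoin]
  have h1 := rho_le_Rho_of_val hA hfr hf x W hx fun x' hx' =>
    doms_of_proper (fg_of_nPt hN) (proper_resMap hs hp) W hW (val_resMap hs W hres) x' hx'
  rw [rhoV_eq hs hD] at h1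
  exact h1.trans hr

/-- **R13b**: `LDeg` of the residue field of a horizontal prime divisor over `P^m`. -/
theorem lDeg_of_resBd (hbi : AlgebraicIndependent k b) (hπ : IsRes (F := LB k b) v M π)
    (hM : (⊤ : IntermediateField k M).FG) {d : ℕ} (h : ResBd (k := k) b v d)
    (v₀ : ValuationSubring (LB k b)) (hv : ZDim k v₀) : LDeg M v₀ (RV v₀ (PB k b)) d :=
  TG55.lDeg_PB hbi M hM (fun j W hW hj x hx => rho_le hbi hπ h j W hW hj x hx) v₀ hv

/-- Separability of the residue field from the bound. -/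
theorem isSeparable_of_resBd (hbi : AlgebraicIndependent k b) (hπ : IsRes (F := LB k b) v M π)
    {d p : ℕ} (hp : p.Prime) (hchar : CharP k p) (hd : d < p) (h : ResBd (k := k) b v d) :
    Algebra.IsSeparable (LB k b) M := by
  have hk := hk_of_isRes hπ
  -- a zero-dimensional valuation ring of `M`
  obtain ⟨W, -, hW⟩ : ∃ W : ValuationSubring M, W ≤ ⊤ ∧ ZDim k W := by
    exact TG.exists_zdim_le (k := k) (V := (⊤ : ValuationSubring M)) (fun c => trivial)
  -- a minimal coordinate
  have hbne : ∀ i, b i ≠ 0 := fun i => hbi.ne_zero i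
  have hwne := TG55.wB_ne (k := k) hbne
  have hv₀ : ZDim k (W.comap (algebraMap (LB k b) M)) := by
    refine ⟨fun c => ?_, fun y hy => ?_⟩
    · change algebraMap (LB k b) M (algebraMap k (LB k b) c) ∈ W
      rw [← IsScalarTower.algebraMap_apply]
      exact hW.ov c
    · obtain ⟨c, hc⟩ := hW.res (algebraMap (LB k b) M y) hy
      refine ⟨c, ?_⟩
      rw [TG.comap_lt_one, map_sub, ← IsScalarTower.algebraMap_apply]
      exact hc
  classical
  obtain ⟨c, hc, hmin⟩ := TG.exists_isMin_mem hv₀.ov (Finset.univ.image (wB k b))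
    ⟨wB k b 0, Finset.mem_image_of_mem _ (Finset.mem_univ _), hwne 0⟩
  obtain ⟨j, -, rfl⟩ := Finset.mem_image.1 hc
  have hj : ∀ i, algebraMap (LB k b) M (wB k b i / wB k b j) ∈ W := fun i =>
    hmin.div _ (Submodule.subset_span (Finset.mem_coe.2
      (Finset.mem_image_of_mem _ (Finset.mem_univ i))))
  have hAW : ∀ a ∈ Algebra.adjoin k (Set.range fun i => wB k b i / wB k b j),
      a ∈ W.comap (algebraMap (LB k b) M) := by
    have h1 : Algebra.adjoin k (Set.range fun i => wB k b i / wB k b j) ≤ TG.valg hv₀.ov :=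
      Algebra.adjoin_le (by
        rintro _ ⟨i, rfl⟩
        exact hj i)
    exact fun a ha => h1 ha
  obtain ⟨x, hx⟩ := TG55.exists_point
    (Algebra.adjoin k (Set.range fun i => wB k b i / wB k b j)) W hW.ov (fun a ha => by
      exact hW.res _ (hAW a ha))
  have h1 := rho_le hbi hπ h j W hW hj x hx
  have hpf : Fact p.Prime := ⟨hp⟩
  exact TG55.isSeparable_of_rho p _ x (h1.trans_lt hd)

end Main

end Pool.Agent.TGJ32
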