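import Pool.Agent.Lib.TGJ_h32.ResDeg
import Pool.Agent.Lib.TGJ.R13coord

/-!
# TANK G, block C, R13b: from `GPOut` to the bound `ResBd` of the bad prime divisors
-/

set_option autoImplicit false

namespace Pool.Agent.TGJ32

open Pool.Agent.TG (Ov ZDim ncl up LB PB LDeg RV NV IsMin)
open Pool.Agent.TGJ
open Pool.Agent.TG55 (wB hB wB_coe)
open Pool.Agent.TG21 (IsRes)

universe u

variable {k K : Type u} [Field k] [Field K] [Algebra k K] {m : ℕ} {W : Submodule k K}
  {h : Fin (m + 2) → K} {Θ : Set (ValuationSubring K)} {d : ℕ}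

theorem hB_ratio (hne : ∀ i, h i ≠ 0) {b : Fin m → K}
    (hb : ∀ i : Fin m, b i = h i.succ.castSucc / h 0) (i : Fin (m + 1)) :
    hB b i = h i.castSucc / h 0 := by
  refine Fin.cases ?_ (fun i => ?_) i
  · rw [Fin.castSucc_zero, div_self (hne 0)]
    rfl
  · exact hb i

theorem hB_div (hne : ∀ i, h i ≠ 0) {b : Fin m → K}
    (hb : ∀ i : Fin m, b i = h i.succ.castSucc / h 0) (i j : Fin (m + 1)) :
    hB b i / hB b j = h i.castSucc / h j.castSucc := by
  rw [hB_ratio hne hb, hB_ratio hne hb, div_div_div_cancel_right₀ (hne 0)]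

/-- **The bad prime divisors have bounded local degrees over `P^m`.** -/
theorem resBd_of_gpOut [PerfectField k] (hK : (⊤ : IntermediateField k K).FG)
    (H : GPOut W h Θ d) {b : Fin m → K} (hb : ∀ i : Fin m, b i = h i.succ.castSucc / h 0)
    {v : ValuationSubring K} (hD : ∀ V, ZDim k V → V ≤ v → IsDiv (NV V W) v)
    (hbad : ∀ V, ZDim k V → V ≤ v → ∀ j, (∀ i, h i / h j ∈ V) →
      ∀ res : NV V W →ₐ[k] k, ResAt V res → ∀ y : Fin (m + 1) → NV V W, Coord h j res y →
        ramV v y ≠ 0 ∨ v ∈ Θ) : ResBd (k := k) b v d := by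
  intro V hV hle j hj
  have hne := H.ne
  have hj' : ∀ i : Fin (m + 1), h i.castSucc / h j.castSucc ∈ V := fun i => by
    rw [← hB_div hne hb]
    exact hj i
  obtain ⟨res, hres⟩ := exists_resAt (k := k) (S := NV V W) (TG.NV_le hV.ov H.model) hV
  -- `V` is not over `O`
  have hall : ∀ i, h i / h j.castSucc ∈ V := by
    by_contra hcon
    push Not at hcon
    obtain ⟨i, hi⟩ := hcon
    have hil : i = Fin.last (m + 1) := by
      by_contra hne
      obtain ⟨i', rfl⟩ := Fin.exists_castSucc_eq.2 hne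
      exact hi (hj' i')
    subst hil
    have h0 : h (Fin.last (m + 1)) / h j.castSucc ≠ 0 := div_ne_zero (hne _) (hne _)
    have h1 : V.valuation (h j.castSucc / h (Fin.last (m + 1))) < 1 := by
      rw [TG.val_lt_one_iff' V (div_ne_zero (hne _) (hne _)), inv_div]
      exact hi
    have h2 : ∀ i, i ≠ Fin.last (m + 1) → V.valuation (h i / h (Fin.last (m + 1))) < 1 := by
      intro i hi'
      obtain ⟨i', rfl⟩ := Fin.exists_castSucc_eq.2 hi'
      have h3 : h i'.castSucc / h (Fin.last (m + 1)) =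
          (h i'.castSucc / h j.castSucc) * (h j.castSucc / h (Fin.last (m + 1))) := by
        rw [div_mul_div_cancel₀ (hne _)]
      rw [h3, map_mul]
      exact lt_of_le_of_lt (mul_le_of_le_one_left' ((V.valuation_le_one_iff _).2 (hj' i'))) h1
    have h3 : ∀ i, h i / h (Fin.last (m + 1)) ∈ V := by
      intro i
      by_cases hi' : i = Fin.last (m + 1)
      · rw [hi', div_self (hne _)]
        exact V.one_mem
      · exact (V.valuation_le_one_iff _).1 (h2 i hi').le
    obtain ⟨y, hy⟩ := H.exists_coord hV h3 res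
    obtain ⟨h4, h5⟩ := H.out V hV h3 h2 res hres y hy v (hD V hV hle)
    rcases hbad V hV hle _ h3 res hres y hy with h6 | h6
    · exact h6 h4
    · exact h5 h6
  obtain ⟨y, hy⟩ := H.exists_coord hV hall res
  obtain ⟨hp, hr⟩ := H.ram V hV j.castSucc (Fin.castSucc_lt_last j).ne hall res hres y hy v
    (hD V hV hle) (hbad V hV hle _ hall res hres y hy)
  refine ⟨NV V W, res, nPt_NV hK H.model H.fin' hV hres, hD V hV hle, hres, y ∘ Fin.castSucc,
    fun i => ?_, hp, hr⟩
  obtain ⟨c, hc⟩ := (hy i.castSucc).2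
  refine ⟨c, ?_⟩
  change (y i.castSucc : K) = _
  rw [hc, hB_div hne hb, Fin.castSucc_succAbove_castSucc]

end Pool.Agent.TGJ32
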